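import Mathlib
import Pool.Agent.Helper194.A1

/-!
# Closing off: separable reduction for surjective isometries of unit spheres
-/

set_option autoImplicit false

open Set TopologicalSpace Pool.Agent.Helper194.MUP

namespace Pool.Agent.Y960.MU

variable {ι X Y : Type*} [NormedAddCommGroup X] [NormedSpace ℝ X] [NormedAddCommGroup Y]
  [NormedSpace ℝ Y] (e : ι → X)

/-- the closed subspace spanned by the vectors `e i`, `i ∈ J` -/
def XS (J : Set ι) : Submodule ℝ X := (Submodule.span ℝ (e '' J)).topologicalClosure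

lemma XS_closed (J : Set ι) : IsClosed (XS e J : Set X) :=
  Submodule.isClosed_topologicalClosure _

lemma XS_mono {J J' : Set ι} (h : J ⊆ J') : XS e J ≤ XS e J' :=
  Submodule.topologicalClosure_mono (Submodule.span_mono (image_mono h))

lemma mem_countable (hd : ∀ x : X, x ∈ closure (Submodule.span ℝ (range e) : Set X)) (x : X) :
    ∃ J : Set ι, J.Countable ∧ x ∈ XS e J := by
  obtain ⟨u, hu, hux⟩ := mem_closure_iff_seq_limit.1 (hd x)
  have h1 : ∀ n, ∃ c : ι →₀ ℝ, (c.sum fun i a => a • e i) = u n := fun n =>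
    Finsupp.mem_span_range_iff_exists_finsupp.1 (hu n)
  choose c hc using h1
  refine ⟨⋃ n, ((c n).support : Set ι), countable_iUnion fun n => (c n).support.countable_toSet,
    ?_⟩
  have h2 : ∀ n, u n ∈ XS e (⋃ n, ((c n).support : Set ι)) := by
    intro n
    refine Submodule.le_topologicalClosure _ ?_
    rw [← hc n]
    refine Submodule.sum_mem _ fun i hi => Submodule.smul_mem _ _ (Submodule.subset_span ?_)
    exact ⟨i, mem_iUnion.2 ⟨n, hi⟩, rfl⟩
  exact (XS_closed e _).mem_of_tendsto hux (Filter.Eventually.of_forall h2)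

lemma XS_separable {J : Set ι} (hJ : J.Countable) : IsSeparable (XS e J : Set X) :=
  (hJ.image e).isSeparable.span.closure

lemma XS_chain {J : ℕ → Set ι} (hm : Monotone J) :
    (XS e (⋃ n, J n) : Set X) ⊆ closure (⋃ n, (XS e (J n) : Set X)) := by
  have h1 : (Submodule.span ℝ (e '' ⋃ n, J n) : Set X) ⊆ ⋃ n, (XS e (J n) : Set X) := by
    rw [image_iUnion, Submodule.span_iUnion, Submodule.coe_iSup_of_directed]
    · refine iUnion_mono fun n => ?_
      exact Submodule.le_topologicalClosure _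
    · exact (show Monotone fun n => Submodule.span ℝ (e '' J n) from fun m n hmn =>
        Submodule.span_mono (image_mono (hm hmn))).directed_le
  exact closure_mono h1

/-- the closed subspace of `Y` spanned by the image of the sphere of `XS e J` -/
def YS (v : X → Y) (J : Set ι) : Submodule ℝ Y :=
  (Submodule.span ℝ (v '' {x | ‖x‖ = 1 ∧ x ∈ XS e J})).topologicalClosure

lemma YS_mono (v : X → Y) {J J' : Set ι} (h : J ⊆ J') : YS e v J ≤ YS e v J' :=
  Submodule.topologicalClosure_mono (Submodule.span_mono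
    (image_mono fun _ hx => ⟨hx.1, XS_mono e h hx.2⟩))

lemma YS_mem (v : X → Y) {J : Set ι} {x : X} (hx : ‖x‖ = 1) (hJ : x ∈ XS e J) :
    v x ∈ YS e v J :=
  Submodule.le_topologicalClosure _ (Submodule.subset_span ⟨x, ⟨hx, hJ⟩, rfl⟩)

lemma YS_separable {v : X → Y} (hv : SphIso v) {J : Set ι} (hJ : J.Countable) :
    IsSeparable (YS e v J : Set Y) := by
  have h1 : IsSeparable {x : X | ‖x‖ = 1 ∧ x ∈ XS e J} :=
    (XS_separable e hJ).mono fun x hx => hx.2
  obtain ⟨t, ht, htc, hst⟩ := h1.exists_countable_dense_subset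
  have h2 : IsSeparable (v '' {x : X | ‖x‖ = 1 ∧ x ∈ XS e J}) := by
    refine ⟨v '' t, htc.image v, ?_⟩
    rintro _ ⟨x, hx, rfl⟩
    rw [Metric.mem_closure_iff]
    intro ε hε
    obtain ⟨d, hd, hxd⟩ := Metric.mem_closure_iff.1 (hst hx) ε hε
    refine ⟨v d, ⟨d, hd, rfl⟩, ?_⟩
    rw [dist_eq_norm] at hxd ⊢
    rw [hv.dist_eq x d hx.1 (ht hd).1]
    exact hxd
  exact h2.span.closure

/-- one step of the closing-off -/
lemma step (hd : ∀ x : X, x ∈ closure (Submodule.span ℝ (range e) : Set X)) {v : X → Y}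
    (hv : SphIso v) {J : Set ι} (hJ : J.Countable) : ∃ J' : Set ι, J'.Countable ∧ J ⊆ J' ∧
    ∀ x, ‖x‖ = 1 → v x ∈ YS e v J → x ∈ XS e J' := by
  have h1 : IsSeparable {y : Y | ‖y‖ = 1 ∧ y ∈ YS e v J} :=
    (YS_separable e hv hJ).mono fun x hx => hx.2
  obtain ⟨t, ht, htc, hst⟩ := h1.exists_countable_dense_subset
  have h2 : ∀ y : t, ∃ x : X, ‖x‖ = 1 ∧ v x = y := fun y => hv.surj y (ht y.2).1
  choose g hg1 hg2 using h2
  have h3 : ∀ y : t, ∃ K : Set ι, K.Countable ∧ g y ∈ XS e K := fun y => mem_countable e hd (g y)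
  choose K hK1 hK2 using h3
  have : Countable t := htc.to_subtype
  refine ⟨J ∪ ⋃ y, K y, hJ.union (countable_iUnion hK1), subset_union_left, ?_⟩
  intro x hx hxv
  have hcl : x ∈ closure (XS e (J ∪ ⋃ y, K y) : Set X) := by
    rw [Metric.mem_closure_iff]
    intro ε hε
    obtain ⟨y, hy, hxy⟩ := Metric.mem_closure_iff.1
      (hst (show v x ∈ {y : Y | ‖y‖ = 1 ∧ y ∈ YS e v J} from ⟨hv.norm_eq x hx, hxv⟩)) ε hε
    refine ⟨g ⟨y, hy⟩, ?_, ?_⟩
    · exact XS_mono e (subset_union_of_subset_right (subset_iUnion K ⟨y, hy⟩) _) (hK2 ⟨y, hy⟩)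
    · have h4 := hg2 ⟨y, hy⟩
      rw [dist_eq_norm] at hxy ⊢
      rw [← hv.dist_eq x (g ⟨y, hy⟩) hx (hg1 _), h4]
      exact hxy
  rwa [(XS_closed e _).closure_eq] at hcl

/-- normalising an approximation of a unit vector -/
lemma normalise {Z : Type*} [NormedAddCommGroup Z] [NormedSpace ℝ Z] {x z : Z} {ε : ℝ}
    (hx : ‖x‖ = 1) (hz : ‖x - z‖ < ε) (hε : ε ≤ 1) :
    ‖‖z‖⁻¹ • z‖ = 1 ∧ ‖x - ‖z‖⁻¹ • z‖ < 2 * ε := by
  have h1 : |‖x‖ - ‖z‖| ≤ ‖x - z‖ := abs_norm_sub_norm_le x z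
  rw [hx] at h1
  have h2 : |1 - ‖z‖| < ε := lt_of_le_of_lt h1 hz
  obtain ⟨h3, h4⟩ := abs_lt.1 h2
  have hz0 : 0 < ‖z‖ := by linarith
  have h5 : ‖‖z‖⁻¹ • z‖ = 1 := by
    rw [norm_smul, norm_inv, norm_norm, inv_mul_cancel₀ hz0.ne']
  refine ⟨h5, ?_⟩
  have h6 : ‖z - ‖z‖⁻¹ • z‖ = |‖z‖ - 1| := by
    have h7 : z - ‖z‖⁻¹ • z = (1 - ‖z‖⁻¹) • z := by rw [sub_smul, one_smul]
    rw [h7, norm_smul, Real.norm_eq_abs, ← abs_of_pos hz0, ← abs_mul, abs_of_pos hz0]
    congr 1
    field_simp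
  have h8 : ‖x - ‖z‖⁻¹ • z‖ ≤ ‖x - z‖ + ‖z - ‖z‖⁻¹ • z‖ := by
    have : x - ‖z‖⁻¹ • z = (x - z) + (z - ‖z‖⁻¹ • z) := by abel
    rw [this]
    exact norm_add_le _ _
  rw [h6, abs_sub_comm] at h8
  linarith

/-- Closing off: every countable set of indices is contained in a countable set `J` such that the
sphere of `XS e J` is mapped onto the sphere of a closed subspace. -/
theorem closing (hd : ∀ x : X, x ∈ closure (Submodule.span ℝ (range e) : Set X)) {v : X → Y}
    (hv : SphIso v) {J₀ : Set ι} (hJ₀ : J₀.Countable) : ∃ J : Set ι, J.Countable ∧ J₀ ⊆ J ∧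
    ∀ x, ‖x‖ = 1 → (x ∈ XS e J ↔ v x ∈ YS e v J) := by
  classical
  -- the sequence
  let nx : {J : Set ι // J.Countable} → {J : Set ι // J.Countable} := fun J =>
    ⟨(step e hd hv J.2).choose, (step e hd hv J.2).choose_spec.1⟩
  have hnx : ∀ J : {J : Set ι // J.Countable}, J.1 ⊆ (nx J).1 ∧
      ∀ x, ‖x‖ = 1 → v x ∈ YS e v J.1 → x ∈ XS e (nx J).1 := fun J =>
    (step e hd hv J.2).choose_spec.2
  let s : ℕ → {J : Set ι // J.Countable} := fun n => nx^[n] ⟨J₀, hJ₀⟩
  have hs : ∀ n, s (n + 1) = nx (s n) := fun n => Function.iterate_succ_apply' nx n _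
  have hmono : Monotone fun n => (s n).1 := by
    refine monotone_nat_of_le_succ fun n => ?_
    rw [hs]
    exact (hnx (s n)).1
  refine ⟨⋃ n, (s n).1, countable_iUnion fun n => (s n).2, subset_iUnion (fun n => (s n).1) 0,
    fun x hx => ⟨fun h => YS_mem e v hx h, fun h => ?_⟩⟩
  -- `YS` of the union is the closure of the union of the `YS`
  set Z : Submodule ℝ Y := (⨆ n, YS e v (s n).1).topologicalClosure with hZ
  have hle : YS e v (⋃ n, (s n).1) ≤ Z := by
    refine Submodule.topologicalClosure_minimal _ ?_ (Submodule.isClosed_topologicalClosure _)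
    rw [Submodule.span_le]
    rintro _ ⟨w, ⟨hw1, hw2⟩, rfl⟩
    have h1 : w ∈ closure (⋃ n, (XS e (s n).1 : Set X)) := XS_chain e hmono hw2
    have h2 : v w ∈ closure ((⨆ n, YS e v (s n).1 : Submodule ℝ Y) : Set Y) := by
      rw [Metric.mem_closure_iff]
      intro ε hε
      obtain ⟨z, hz, hwz⟩ := Metric.mem_closure_iff.1 h1 (min (ε / 2) 1) (by positivity)
      rw [dist_eq_norm] at hwz
      obtain ⟨n, hn⟩ := mem_iUnion.1 hz
      obtain ⟨h3, h4⟩ := normalise hw1 hwz (min_le_right _ _)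
      refine ⟨v (‖z‖⁻¹ • z), ?_, ?_⟩
      · exact (le_iSup (fun n => YS e v (s n).1) n)
          (YS_mem e v h3 (Submodule.smul_mem _ _ hn))
      · rw [dist_eq_norm, hv.dist_eq _ _ hw1 h3]
        have := min_le_left (ε / 2) 1
        linarith
    exact h2
  have h1 : v x ∈ closure ((⨆ n, YS e v (s n).1 : Submodule ℝ Y) : Set Y) := hle h
  have hdir : Directed (· ≤ ·) fun n => YS e v (s n).1 :=
    (show Monotone fun n => YS e v (s n).1 from fun m n hmn => YS_mono e v (hmono hmn)).directed_le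
  rw [Submodule.coe_iSup_of_directed _ hdir] at h1
  have h2 : x ∈ closure (XS e (⋃ n, (s n).1) : Set X) := by
    rw [Metric.mem_closure_iff]
    intro ε hε
    obtain ⟨z, hz, hwz⟩ := Metric.mem_closure_iff.1 h1 (min (ε / 2) 1) (by positivity)
    rw [dist_eq_norm] at hwz
    obtain ⟨n, hn⟩ := mem_iUnion.1 hz
    obtain ⟨h3, h4⟩ := normalise (hv.norm_eq x hx) hwz (min_le_right _ _)
    obtain ⟨w, hw1, hw2⟩ := hv.surj _ h3
    refine ⟨w, ?_, ?_⟩
    · have h5 : w ∈ XS e (nx (s n)).1 := (hnx (s n)).2 w hw1 (by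
        rw [hw2]
        exact Submodule.smul_mem _ _ hn)
      rw [← hs] at h5
      exact XS_mono e (subset_iUnion (fun n => (s n).1) (n + 1)) h5
    · rw [dist_eq_norm, ← hv.dist_eq x w hx hw1, hw2]
      have := min_le_left (ε / 2) 1
      linarith
  rwa [(XS_closed e _).closure_eq] at h2

end Pool.Agent.Y960.MU
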