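import Pool.Agent.Helper194.A11
import Pool.Agent.Y960.MU.Clo

/-!
# The Mazur-Ulam property of combinatorial spaces over arbitrary index sets
-/

set_option autoImplicit false

open Set TopologicalSpace UniformSpace Pool.Agent.Helper194.MUP

namespace Pool.Agent.Y960.MU

section

variable {ι : Type*} {F : Set (Finset ι)} {E : Type*} [SeminormedAddCommGroup E]
  [NormedSpace ℝ E] (L : E ≃ₗ[ℝ] (ι →₀ ℝ))

/-- the vectors with support in `J` -/
noncomputable def EJ (J : Set ι) : Submodule ℝ E := (Finsupp.supported ℝ ℝ J).comap (L : E →ₗ[ℝ] (ι →₀ ℝ))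

/-- the coordinates of the vectors with support in `J` -/
noncomputable def LJ (J : Set ι) : EJ L J ≃ₗ[ℝ] (J →₀ ℝ) :=
  (L.ofSubmodule' (Finsupp.supported ℝ ℝ J)).trans (Finsupp.supportedEquivFinsupp J)

lemma LJ_apply (J : Set ι) (x : EJ L J) (j : J) : LJ L J x j = L (x : E) j := rfl

/-- the family of the members which are subsets of `J` -/
def FJ (F : Set (Finset ι)) (J : Set ι) : Set (Finset J) :=
  {A | A.map (Function.Embedding.subtype _) ∈ F}

open Classical in
lemma subtype_mem (her : ∀ A ∈ F, ∀ B, B ⊆ A → B ∈ F) (J : Set ι) {A : Finset ι} (hA : A ∈ F) :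
    A.subtype (· ∈ J) ∈ FJ F J := by
  refine her A hA _ ?_
  rw [Finset.subtype_map]
  exact Finset.filter_subset _ _

lemma norm_J (her : ∀ A ∈ F, ∀ B, B ⊆ A → B ∈ F)
    (hn : ∀ x : E, ‖x‖ = sSup {r | ∃ A ∈ F, r = ∑ j ∈ A, |L x j|}) (J : Set ι) (x : EJ L J) :
    ‖x‖ = sSup {r | ∃ A ∈ FJ F J, r = ∑ j ∈ A, |LJ L J x j|} := by
  classical
  have h0 : ‖x‖ = ‖(x : E)‖ := rfl
  rw [h0, hn]
  congr 1
  ext r
  constructor
  · rintro ⟨A, hA, rfl⟩
    refine ⟨A.subtype (· ∈ J), subtype_mem her J hA, ?_⟩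
    simp only [LJ_apply]
    have h1 : ∑ j ∈ A.subtype (· ∈ J), |L (x : E) j| =
        ∑ j ∈ (A.subtype (· ∈ J)).map (Function.Embedding.subtype _), |L (x : E) j| := by
      rw [Finset.sum_map]
      rfl
    rw [h1, Finset.subtype_map]
    symm
    refine Finset.sum_subset (Finset.filter_subset _ _) fun j hj hj' => ?_
    have h2 : j ∉ J := fun h => hj' (Finset.mem_filter.2 ⟨hj, h⟩)
    have h3 : L (x : E) ∈ Finsupp.supported ℝ ℝ J := x.2
    rw [Finsupp.mem_supported'] at h3
    rw [h3 j h2, abs_zero]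
  · rintro ⟨A, hA, rfl⟩
    refine ⟨A.map (Function.Embedding.subtype _), hA, ?_⟩
    rw [Finset.sum_map]
    rfl

open Classical in
lemma compact_J (her : ∀ A ∈ F, ∀ B, B ⊆ A → B ∈ F) (hK : IsCompact (ind '' F)) (J : Set ι) :
    IsCompact (ind '' (FJ F J)) := by
  have h1 : ind '' (FJ F J) = (fun (c : ι → Bool) (j : J) => c j) '' (ind '' F) := by
    ext c
    constructor
    · rintro ⟨A, hA, rfl⟩
      refine ⟨_, ⟨A.map (Function.Embedding.subtype _), hA, rfl⟩, ?_⟩
      funext j
      simp [ind]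
    · rintro ⟨_, ⟨A, hA, rfl⟩, rfl⟩
      refine ⟨A.subtype (· ∈ J), subtype_mem her J hA, ?_⟩
      funext j
      simp [ind]
  rw [h1]
  exact hK.image (continuous_pi fun j => continuous_apply (j : ι))

open Classical in
/-- the data of the countable theory -/
noncomputable def preJ (her : ∀ A ∈ F, ∀ B, B ⊆ A → B ∈ F) (hs : ∀ i, {i} ∈ F)
    (hK : IsCompact (ind '' F))
    (hn : ∀ x : E, ‖x‖ = sSup {r | ∃ A ∈ F, r = ∑ j ∈ A, |L x j|}) (J : Set ι) :
    Pre (FJ F J) (EJ L J) where
  L := LJ L J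
  her := by
    intro A hA B hBA
    exact her _ hA _ (Finset.map_subset_map.2 hBA)
  single := by
    intro j
    show Finset.map _ {j} ∈ F
    rw [Finset.map_singleton]
    exact hs _
  cpt := compact_J her hK J
  norm_eq := norm_J L her hn J

/-- the unit vectors -/
noncomputable def ev (i : ι) : Completion E := ((L.symm (Finsupp.single i 1) : E) : Completion E)

/-- the embedding of the completion of `EJ L J` -/
noncomputable def Φ (J : Set ι) : Completion (EJ L J) →L[ℝ] Completion E :=
  ((Completion.toComplL : E →L[ℝ] Completion E).comp (EJ L J).subtypeL).fromCompletion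

lemma Φ_coe (J : Set ι) (x : EJ L J) :
    Φ L J (x : Completion (EJ L J)) = ((x : E) : Completion E) := by
  unfold Φ
  rw [ContinuousLinearMap.fromCompletion_apply_coe]
  rfl

lemma norm_Φ (J : Set ι) (u : Completion (EJ L J)) : ‖Φ L J u‖ = ‖u‖ := by
  induction u using Completion.induction_on with
  | hp => exact isClosed_eq (Φ L J).continuous.norm continuous_norm
  | ih x =>
    rw [Φ_coe, Completion.norm_coe, Completion.norm_coe]
    rfl

lemma dist_Φ (J : Set ι) (u w : Completion (EJ L J)) : ‖Φ L J u - Φ L J w‖ = ‖u - w‖ := by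
  rw [← map_sub, norm_Φ]

lemma Φ_isom (J : Set ι) : Isometry (Φ L J) := by
  refine Isometry.of_dist_eq fun u w => ?_
  rw [dist_eq_norm, dist_eq_norm, dist_Φ]

lemma coe_mem_XS (J : Set ι) (x : EJ L J) : ((x : E) : Completion E) ∈ XS (ev L) J := by
  refine Submodule.le_topologicalClosure _ ?_
  have h1 : L (x : E) ∈ Finsupp.supported ℝ ℝ J := x.2
  rw [Finsupp.supported_eq_span_single] at h1
  -- the map from finitely supported functions to the completion
  let g : (ι →₀ ℝ) →ₗ[ℝ] Completion E :=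
    ((Completion.toComplL : E →L[ℝ] Completion E) : E →ₗ[ℝ] Completion E).comp
      (L.symm : (ι →₀ ℝ) →ₗ[ℝ] E)
  have h2 : g (L (x : E)) ∈ Submodule.map g (Submodule.span ℝ
      ((fun i => Finsupp.single i 1) '' J)) := Submodule.mem_map_of_mem h1
  rw [Submodule.map_span, image_image] at h2
  have h3 : g (L (x : E)) = ((x : E) : Completion E) := by
    simp only [g, LinearMap.comp_apply, LinearEquiv.coe_coe, LinearEquiv.symm_apply_apply]
    rfl
  rw [h3] at h2
  exact h2

lemma range_Φ (J : Set ι) : range (Φ L J) = (XS (ev L) J : Set (Completion E)) := by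
  have hcl : IsClosed (range (Φ L J)) := (Φ_isom L J).isClosedEmbedding.isClosed_range
  apply Subset.antisymm
  · rintro _ ⟨u, rfl⟩
    induction u using Completion.induction_on with
    | hp => exact (XS_closed _ J).preimage (Φ L J).continuous
    | ih x =>
      rw [Φ_coe]
      exact coe_mem_XS L J x
  · have h1 : (Submodule.span ℝ (ev L '' J)) ≤ LinearMap.range (Φ L J).toLinearMap := by
      rw [Submodule.span_le]
      rintro _ ⟨i, hi, rfl⟩
      refine ⟨((⟨L.symm (Finsupp.single i 1), ?_⟩ : EJ L J) : Completion (EJ L J)), ?_⟩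
      · show L (L.symm (Finsupp.single i 1)) ∈ Finsupp.supported ℝ ℝ J
        rw [L.apply_symm_apply]
        exact Finsupp.single_mem_supported ℝ 1 hi
      · exact Φ_coe L J _
    have h2 : (XS (ev L) J : Set (Completion E)) ⊆ closure (range (Φ L J)) :=
      closure_mono h1
    rwa [hcl.closure_eq] at h2

lemma dense_ev (x : Completion E) :
    x ∈ closure (Submodule.span ℝ (range (ev L)) : Set (Completion E)) := by
  have h1 : range ((↑) : E → Completion E) ⊆ (Submodule.span ℝ (range (ev L))) := by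
    rintro _ ⟨y, rfl⟩
    obtain ⟨f, rfl⟩ := L.symm.surjective y
    induction f using Finsupp.induction_linear with
    | zero =>
      rw [map_zero, Completion.coe_zero]; exact Submodule.zero_mem _
    | add f g hf hg =>
      rw [map_add, Completion.coe_add]; exact Submodule.add_mem _ hf hg
    | single i a =>
      have h2 : Finsupp.single i a = a • (Finsupp.single i (1:ℝ)) := by simp
      rw [h2, map_smul, Completion.coe_smul]
      exact Submodule.smul_mem _ _ (Submodule.subset_span ⟨i, rfl⟩)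
  exact closure_mono h1 (Completion.denseRange_coe x)

end

/-- the homogeneous extension -/
noncomputable def hom {X Y : Type*} [NormedAddCommGroup X] [NormedSpace ℝ X]
    [NormedAddCommGroup Y] [NormedSpace ℝ Y] (v : X → Y) (x : X) : Y := ‖x‖ • v (‖x‖⁻¹ • x)

lemma norm_inv_smul {X : Type*} [NormedAddCommGroup X] [NormedSpace ℝ X] {x : X} (hx : x ≠ 0) :
    ‖‖x‖⁻¹ • x‖ = 1 := by
  rw [norm_smul, norm_inv, norm_norm, inv_mul_cancel₀ (norm_ne_zero_iff.2 hx)]

open Classical in
/-- **The Mazur-Ulam property, for arbitrary index sets.** -/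
theorem main {ι : Type*} [Nontrivial ι] {F : Set (Finset ι)} {E : Type*}
    [SeminormedAddCommGroup E] [NormedSpace ℝ E] (L : E ≃ₗ[ℝ] (ι →₀ ℝ))
    (her : ∀ A ∈ F, ∀ B, B ⊆ A → B ∈ F) (hs : ∀ i, {i} ∈ F) (hK : IsCompact (ind '' F))
    (hn : ∀ x : E, ‖x‖ = sSup {r | ∃ A ∈ F, r = ∑ j ∈ A, |L x j|})
    {Y : Type*} [NormedAddCommGroup Y] [NormedSpace ℝ Y] [CompleteSpace Y]
    {v : Completion E → Y} (hv : SphIso v) :
    ∃ T : Completion E ≃ₗᵢ[ℝ] Y, ∀ z, ‖z‖ = 1 → v z = T z := by
  -- the local linearity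
  have hloc : ∀ x y : Completion E, hom v (x + y) = hom v x + hom v y ∧
      ∀ c : ℝ, hom v (c • x) = c • hom v x := by
    intro x y
    obtain ⟨i, j, hij⟩ := exists_pair_ne ι
    obtain ⟨J₁, hJ₁, hx⟩ := mem_countable (ev L) (dense_ev L) x
    obtain ⟨J₂, hJ₂, hy⟩ := mem_countable (ev L) (dense_ev L) y
    obtain ⟨J, hJ, hJ0, hcl⟩ := closing (ev L) (dense_ev L) hv
      (J₀ := J₁ ∪ J₂ ∪ {i, j}) ((hJ₁.union hJ₂).union (by simp))
    have hxJ : x ∈ XS (ev L) J := XS_mono _ (by
      intro k hk
      exact hJ0 (Or.inl (Or.inl hk))) hx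
    have hyJ : y ∈ XS (ev L) J := XS_mono _ (by
      intro k hk
      exact hJ0 (Or.inl (Or.inr hk))) hy
    have hcount : Countable J := hJ.to_subtype
    have hnt : Nontrivial J := ⟨⟨⟨i, hJ0 (Or.inr (by simp))⟩, ⟨j, hJ0 (Or.inr (by simp))⟩, by
      intro h
      exact hij (congrArg Subtype.val h)⟩⟩
    have hne : Nonempty J := inferInstance
    set Y' : Submodule ℝ Y := YS (ev L) v J with hY'
    have hY'c : IsClosed (Y' : Set Y) := Submodule.isClosed_topologicalClosure _
    have hY'comp : CompleteSpace Y' := hY'c.completeSpace_coe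
    -- the restricted map
    let w : Completion (EJ L J) → Y' := fun u =>
      if h : ‖u‖ = 1 then ⟨v (Φ L J u), (hcl _ (by rw [norm_Φ, h])).1 (by
        have : Φ L J u ∈ (XS (ev L) J : Set (Completion E)) := by
          rw [← range_Φ]
          exact ⟨u, rfl⟩
        exact this)⟩ else 0
    have hw : ∀ u, ‖u‖ = 1 → (w u : Y) = v (Φ L J u) := by
      intro u hu
      simp only [w, dif_pos hu]
    have hwiso : SphIso w := by
      refine ⟨fun u hu => ?_, fun u u' hu hu' => ?_, fun y' hy' => ?_⟩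
      · rw [Submodule.coe_norm, hw u hu]
        exact hv.norm_eq _ (by rw [norm_Φ, hu])
      · rw [Submodule.coe_norm, Submodule.coe_sub, hw u hu, hw u' hu',
          hv.dist_eq _ _ (by rw [norm_Φ, hu]) (by rw [norm_Φ, hu']), dist_Φ]
      · have h1 : ‖(y' : Y)‖ = 1 := hy'
        obtain ⟨z, hz1, hz2⟩ := hv.surj _ h1
        have h2 : z ∈ XS (ev L) J := (hcl z hz1).2 (by rw [hz2]; exact y'.2)
        have h3 : z ∈ range (Φ L J) := by
          rw [range_Φ]
          exact h2
        obtain ⟨u, rfl⟩ := h3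
        have hu : ‖u‖ = 1 := by rw [← norm_Φ L J u, hz1]
        exact ⟨u, hu, Subtype.ext (by rw [hw u hu, hz2])⟩
    set P := preJ L her hs hK hn J with hP
    obtain ⟨T, hT⟩ := P.model.main P.famOK hwiso
    -- the homogeneous extension is linear on the range
    have hhom : ∀ u : Completion (EJ L J), hom v (Φ L J u) = (T u : Y) := by
      intro u
      unfold hom
      by_cases hu : u = 0
      · rw [hu, map_zero, map_zero, norm_zero, zero_smul]
        rfl
      · have h1 := norm_inv_smul hu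
        have h2 := hT _ h1
        have h3 := hw _ h1
        rw [h2] at h3
        rw [norm_Φ, ← map_smul, ← h3, map_smul, Submodule.coe_smul, smul_smul,
          mul_inv_cancel₀ (norm_ne_zero_iff.2 hu), one_smul]
    have hxr : x ∈ range (Φ L J) := by rw [range_Φ]; exact hxJ
    have hyr : y ∈ range (Φ L J) := by rw [range_Φ]; exact hyJ
    obtain ⟨a, rfl⟩ := hxr
    obtain ⟨b, rfl⟩ := hyr
    refine ⟨?_, fun c => ?_⟩
    · rw [← map_add, hhom, hhom, hhom, map_add, Submodule.coe_add]
    · rw [← map_smul, hhom, hhom, map_smul, Submodule.coe_smul]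
  have hnorm : ∀ x : Completion E, ‖hom v x‖ = ‖x‖ := by
    intro x
    unfold hom
    by_cases hx : x = 0
    · rw [hx, norm_zero, zero_smul, norm_zero]
    · rw [norm_smul, norm_norm, hv.norm_eq _ (norm_inv_smul hx), mul_one]
  let T₀ : Completion E →ₗᵢ[ℝ] Y :=
    { toFun := hom v
      map_add' := fun x y => (hloc x y).1
      map_smul' := fun c x => (hloc x x).2 c
      norm_map' := hnorm }
  have hval : ∀ z, ‖z‖ = 1 → v z = T₀ z := by
    intro z hz
    show v z = hom v z
    unfold hom
    rw [hz, inv_one, one_smul, one_smul]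
  have hsurj : Function.Surjective T₀ := by
    intro y
    by_cases hy : y = 0
    · exact ⟨0, by rw [hy, map_zero]⟩
    · obtain ⟨x, hx1, hx2⟩ := hv.surj _ (norm_inv_smul hy)
      refine ⟨‖y‖ • x, ?_⟩
      rw [map_smul, ← hval x hx1, hx2, smul_smul, mul_inv_cancel₀ (norm_ne_zero_iff.2 hy),
        one_smul]
  exact ⟨LinearIsometryEquiv.ofSurjective T₀ hsurj, fun z hz => by
    rw [LinearIsometryEquiv.coe_ofSurjective]
    exact hval z hz⟩

end Pool.Agent.Y960.MU
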